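import Pool.Agent.Run7.h684.LD.All

/-!
# The Lindelöf hypothesis and one-sided bounds for divisor sums at very sparse points

Let `Δ_k(x)` be the error term in the asymptotic formula for the number of `k`-tuples of positive integers with product
at most `x`. The Lindelöf hypothesis holds if and only if, for infinitely many `k`, the values of `Δ_k` at the cubes
(at the `A`-th powers, `A` as large as we please; at the `A`-th powers of the primes; at the points of an arbitrary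
set with gaps `O(x^(1-η))`) satisfy an upper bound of the right order (or: a lower bound of the right order), with a
power saving for the number of exceptions.
-/

set_option autoImplicit false

open Filter Topology Polynomial

namespace Pool.Agent.Results.MP_4e5e8a_nt.SparseDivisorSums

/-- The Lindelöf hypothesis. -/
def Lindelof : Prop := ∀ ε : ℝ, 0 < ε → ∃ C : ℝ, ∀ t : ℝ,
  ‖riemannZeta (1 / 2 + t * Complex.I)‖ ≤ C * (1 + |t|) ^ ε

/-- To the right of `θ` the zeta function grows slower than every power. -/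
def LindelofRightOf (θ : ℝ) : Prop := ∀ σ ε : ℝ, θ < σ → 0 < ε → ∃ C : ℝ, ∀ s : ℂ, σ ≤ s.re → s.re ≤ 2 →
  1 ≤ |s.im| → ‖riemannZeta s‖ ≤ C * (1 + |s.im|) ^ ε

/-- The error term `Δ_k(x)` for the main term `x P(log x)`. -/
noncomputable def err (k : ℕ) (P : ℝ[X]) (x : ℝ) : ℝ :=
  (∑ n ∈ Finset.Icc 1 ⌊x⌋₊, (((ArithmeticFunction.zeta ^ k : ArithmeticFunction ℕ) n : ℕ) : ℝ)) -
    x * P.eval (Real.log x)

/-- `x P(log x)` is the main term: the error is `o(x)`. -/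
def IsMain (k : ℕ) (P : ℝ[X]) : Prop := err k P =o[atTop] fun x : ℝ => x

/-- For some `C` and all large `x` the interval `[x, x + C x^(1-η)]` contains a point of `Y`. -/
def Gaps (η : ℝ) (Y : Set ℝ) : Prop :=
  ∃ C : ℝ, ∀ᶠ x : ℝ in atTop, ∃ y ∈ Y, x ≤ y ∧ y ≤ x + C * x ^ (1 - η)

/-- For all large `X` fewer than `X^τ` points `y` of `Y` in `[X, eX]` have `s Δ_k(y) > y^a`. -/
def FewExceptions (s : ℝ) (Y : Set ℝ) (τ : ℝ) (k : ℕ) (a : ℝ) : Prop :=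
  ∃ P : ℝ[X], IsMain k P ∧ ∀ᶠ X : ℝ in atTop, ∀ T : Finset ℝ,
    (∀ y ∈ T, y ∈ Y ∧ X ≤ y ∧ y ≤ Real.exp 1 * X ∧ y ^ a < s * err k P y) → (T.card : ℝ) < X ^ τ

/-- At most `N^(1-δ)` of the integers `n ≤ N` have `s Δ_k(n^A) > n^(A a)`, `N` large. -/
def FewPowers (s A δ : ℝ) (k : ℕ) (a : ℝ) : Prop :=
  ∃ P : ℝ[X], IsMain k P ∧ ∀ᶠ N : ℕ in atTop,
    ((Nat.card {n : ℕ | n ≤ N ∧ ((n : ℝ) ^ A) ^ a < s * err k P ((n : ℝ) ^ A)} : ℕ) : ℝ) ≤ (N : ℝ) ^ (1 - δ)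

/-- For all large primes `p` one has `s Δ_k(p^A) ≤ p^(A a)`. -/
def AtPrimes (s A : ℝ) (k : ℕ) (a : ℝ) : Prop :=
  ∃ P : ℝ[X], IsMain k P ∧ ∀ᶠ p : ℕ in atTop, p.Prime → s * err k P ((p : ℝ) ^ A) ≤ ((p : ℝ) ^ A) ^ a

lemma err_eq (k : ℕ) (P : ℝ[X]) (x : ℝ) : err k P x = Run7.h684.LD.er k P x := by
  unfold err Run7.h684.LD.er Run7.h684.LD.D
  simp only [Run7.h684.LD.dv_eq]

lemma main_iff (k : ℕ) (P : ℝ[X]) : IsMain k P ↔ Run7.h684.LD.MT k P := by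
  unfold IsMain Run7.h684.LD.MT
  rw [Asymptotics.isLittleO_iff]
  constructor
  · intro h ε hε
    filter_upwards [h hε, eventually_ge_atTop (0 : ℝ)] with x hx hx0
    rw [Real.norm_eq_abs, Real.norm_of_nonneg hx0, err_eq] at hx
    exact hx
  · intro h ε hε
    filter_upwards [h ε hε, eventually_ge_atTop (0 : ℝ)] with x hx hx0
    rw [Real.norm_eq_abs, Real.norm_of_nonneg hx0, err_eq]
    exact hx

lemma slow_iff (θ : ℝ) : LindelofRightOf θ ↔ Run7.h684.LD.Lr θ := by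
  unfold LindelofRightOf Run7.h684.LD.Lr
  refine forall_congr' fun σ => forall_congr' fun ε => forall_congr' fun _ => forall_congr' fun _ => ?_
  constructor
  · rintro ⟨C, hC⟩
    refine ⟨max C 0, le_max_right _ _, fun s h1 h2 h3 => (hC s h1 h2 h3).trans ?_⟩
    exact mul_le_mul_of_nonneg_right (le_max_left _ _) (by positivity)
  · rintro ⟨C, _, hC⟩
    exact ⟨C, hC⟩

lemma few_iff (s : ℝ) (Y : Set ℝ) (τ : ℝ) (k : ℕ) (a : ℝ) :
    FewExceptions s Y τ k a ↔ Run7.h684.LD.Fw s Y τ k a := by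
  unfold FewExceptions Run7.h684.LD.Fw
  simp only [main_iff, err_eq]

/-- all bounds together -/
lemma all_bounds {θ : ℝ} (hθ0 : 1 / 2 ≤ θ) (hθ1 : θ < 1) (h : LindelofRightOf θ) (k : ℕ) {a : ℝ} (ha : θ < a) :
    ∃ P : ℝ[X], IsMain k P ∧ ∀ᶠ x : ℝ in atTop, |err k P x| ≤ x ^ a := by
  rw [slow_iff] at h
  obtain ⟨P, hP⟩ := Run7.h684.LD.pointwise Run7.h824.LD.t_perron Run7.h684.LD.P824.t_inst Run7.h842.LD.t_polar
    hθ0 hθ1 h k
  refine ⟨P, (main_iff k P).2 (Run7.h684.LD.MT_of_bound hθ1 hP), ?_⟩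
  have h1 := hP (a - θ) (by linarith)
  have e1 : θ + (a - θ) = a := by ring
  rw [e1] at h1
  simp only [err_eq]
  exact h1

lemma le_abs_sign {s : ℝ} (hs : s = 1 ∨ s = -1) (x : ℝ) : s * x ≤ |x| := by
  rcases hs with rfl | rfl
  · rw [one_mul]; exact le_abs_self _
  · rw [neg_one_mul]; exact neg_le_abs _

lemma equiv_set {θ η s : ℝ} (hθ0 : 1 / 2 ≤ θ) (hθ1 : θ < 1) {Y : Set ℝ} (hη : 0 < η) (hη1 : η ≤ 1)
    (hY : Gaps η Y) (hs : s = 1 ∨ s = -1) :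
    LindelofRightOf θ ↔ ∀ a : ℝ, θ < a → ∃ δ : ℝ, 0 < δ ∧ ∀ K : ℕ, ∃ k : ℕ, K ≤ k ∧
      FewExceptions s Y (η - δ) k a := by
  have key := Run7.h684.LD.forms' hθ0 hθ1 hη hη1 hY hs
  have k13 := key.out 0 2
  rw [slow_iff]
  simp only [few_iff]
  exact k13

lemma equiv_powers {θ A s : ℝ} (hθ0 : 1 / 2 ≤ θ) (hθ1 : θ < 1) (hA : 1 ≤ A) (hs : s = 1 ∨ s = -1) :
    LindelofRightOf θ ↔ ∀ a : ℝ, θ < a → ∃ δ : ℝ, 0 < δ ∧ ∀ K : ℕ, ∃ k : ℕ, K ≤ k ∧ FewPowers s A δ k a := by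
  have hA0 : 0 < A := by linarith
  constructor
  · intro h a ha
    refine ⟨1 / 2, by norm_num, fun K => ⟨K, le_rfl, ?_⟩⟩
    obtain ⟨P, hP, h1⟩ := all_bounds hθ0 hθ1 h K ha
    refine ⟨P, hP, ?_⟩
    obtain ⟨x0, hx0⟩ := eventually_atTop.1 h1
    have t1 : Tendsto (fun n : ℕ => (n : ℝ) ^ A) atTop atTop :=
      (tendsto_rpow_atTop hA0).comp tendsto_natCast_atTop_atTop
    obtain ⟨n0, hn0⟩ := eventually_atTop.1 (t1.eventually_ge_atTop x0)
    have t2 : ∀ᶠ N : ℕ in atTop, (n0 : ℝ) ≤ (N : ℝ) ^ (1 - 1 / 2 : ℝ) :=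
      ((tendsto_rpow_atTop (by norm_num)).comp tendsto_natCast_atTop_atTop).eventually_ge_atTop _
    filter_upwards [t2] with N hN
    refine le_trans ?_ hN
    have hsub : {n : ℕ | n ≤ N ∧ ((n : ℝ) ^ A) ^ a < s * err K P ((n : ℝ) ^ A)} ⊆ ((Finset.range n0 : Finset ℕ) : Set ℕ) := by
      intro n hn
      rw [Finset.coe_range, Set.mem_Iio]
      by_contra hcon
      rw [not_lt] at hcon
      have h3 := hx0 _ (hn0 n hcon)
      have h4 := le_abs_sign hs (err K P ((n : ℝ) ^ A))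
      have h5 := hn.2
      linarith
    have h6 : Nat.card {n : ℕ | n ≤ N ∧ ((n : ℝ) ^ A) ^ a < s * err K P ((n : ℝ) ^ A)} ≤ n0 := by
      have h7 := Set.ncard_le_ncard hsub (Finset.finite_toSet _)
      rw [Set.ncard_coe_finset, Finset.card_range] at h7
      exact h7
    exact_mod_cast h6
  · intro h
    have hG : Run7.h684.LD.Gp (1 / A) ((fun y : ℝ => y ^ A) '' Set.range fun n : ℕ => (n : ℝ)) :=
      Run7.h684.LD.gp_pow one_pos hA Run7.h684.LD.gp_nat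
    have hY : Gaps (1 / A) (Set.range fun n : ℕ => (n : ℝ) ^ A) := by
      obtain ⟨C, hC⟩ := hG
      refine ⟨C, hC.mono fun x hx => ?_⟩
      obtain ⟨y, ⟨m, ⟨n, hn⟩, hm⟩, h1, h2⟩ := hx
      exact ⟨y, ⟨n, by rw [← hm, ← hn]⟩, h1, h2⟩
    refine (equiv_set hθ0 hθ1 (η := 1 / A) (by positivity) (by rw [div_le_one hA0]; exact hA) hY hs).2 ?_
    intro a ha
    obtain ⟨δ, hδ, h1⟩ := h a ha
    set δ' : ℝ := min δ 1 with hδ'
    have hδ0 : 0 < δ' := lt_min hδ one_pos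
    refine ⟨δ' / (2 * A), by positivity, fun K => ?_⟩
    obtain ⟨k, hk, P, hP, h2⟩ := h1 K
    refine ⟨k, hk, ?_⟩
    rw [few_iff]
    refine Run7.h684.LD.Fw_pow hA hδ0 (min_le_right _ _) ((main_iff k P).1 hP) ?_
    filter_upwards [h2, eventually_ge_atTop 1] with N hN hN1
    simp only [err_eq] at hN
    refine hN.trans ?_
    have hN1' : (1 : ℝ) ≤ N := by exact_mod_cast hN1
    exact Real.rpow_le_rpow_of_exponent_le hN1' (by linarith [min_le_left δ 1])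

lemma equiv_primes {θ A s : ℝ} (hθ0 : 1 / 2 ≤ θ) (hθ1 : θ < 1) (hA : 1 ≤ A) (hs : s = 1 ∨ s = -1) :
    LindelofRightOf θ ↔ ∀ a : ℝ, θ < a → ∀ K : ℕ, ∃ k : ℕ, K ≤ k ∧ AtPrimes s A k a := by
  have hA0 : 0 < A := by linarith
  constructor
  · intro h a ha K
    obtain ⟨P, hP, h1⟩ := all_bounds hθ0 hθ1 h K ha
    refine ⟨K, le_rfl, P, hP, ?_⟩
    have t1 : Tendsto (fun n : ℕ => (n : ℝ) ^ A) atTop atTop :=
      (tendsto_rpow_atTop hA0).comp tendsto_natCast_atTop_atTop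
    filter_upwards [t1.eventually h1] with p hp _
    exact (le_abs_sign hs _).trans hp
  · intro h
    obtain ⟨η, hη, hη1, hG⟩ := Run7.h684.LD.gp_prime
    have hG2 := Run7.h684.LD.gp_pow hη hA hG
    have hηA : η / A ≤ 1 := by
      rw [div_le_one hA0]
      linarith
    refine (equiv_set hθ0 hθ1 (η := η / A) (by positivity) hηA hG2 hs).2 ?_
    intro a ha
    refine ⟨1, one_pos, fun K => ?_⟩
    obtain ⟨k, hk, P, hP, h1⟩ := h a ha K
    refine ⟨k, hk, P, hP, ?_⟩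
    obtain ⟨p0, hp0⟩ := eventually_atTop.1 h1
    filter_upwards [eventually_gt_atTop ((p0 : ℝ) ^ A), eventually_gt_atTop (0 : ℝ)] with X hX hX0 T hT
    have hT0 : T = ∅ := by
      rw [Finset.eq_empty_iff_forall_notMem]
      intro y hy
      obtain ⟨⟨m, ⟨p, hp, hpm⟩, hm⟩, g2, _, g4⟩ := hT y hy
      have hm' : m ^ A = y := hm
      rw [← hpm] at hm'
      have h3 : (p0 : ℝ) ^ A < (p : ℝ) ^ A := by
        rw [hm']
        exact hX.trans_le g2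
      have h4 : p0 ≤ p := by
        have := (Real.rpow_lt_rpow_iff (Nat.cast_nonneg p0) (Nat.cast_nonneg p) hA0).1 h3
        exact_mod_cast this.le
      have h5 := hp0 p h4 hp
      rw [hm'] at h5
      linarith
    rw [hT0, Finset.card_empty, Nat.cast_zero]
    exact Real.rpow_pos_of_pos hX0 _

/-- **Main theorem.** Let `s = 1` or `s = -1`. (1) For every real `A ≥ 1` the Lindelöf hypothesis is equivalent to: for
every `a > 1/2` there is `δ > 0` such that for arbitrarily large `k`, for all large `N`, at most `N^(1-δ)` of the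
integers `n ≤ N` violate `s Δ_k(n^A) ≤ n^(A a)`; (2) and to: for every `a > 1/2` there are arbitrarily large `k` with
`s Δ_k(p^A) ≤ p^(A a)` for all large primes `p`. (3) Let `Y` be a set of reals that meets `[x, x + C x^(1-η)]` for
some `C` and all large `x` (`0 < η ≤ 1`). The Lindelöf hypothesis is equivalent to: for every `a > 1/2` there is
`δ > 0` such that for arbitrarily large `k`, for all large `X`, fewer than `X^(η-δ)` points `y` of `Y` in `[X, eX]`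
violate `s Δ_k(y) ≤ y^a`. (4) The same three equivalences hold with `1/2` replaced by any `θ` in `[1/2, 1)` and the
Lindelöf hypothesis replaced by `ζ(σ + it) ≪ |t|^ε` for all `σ > θ`, `ε > 0`. (5) If for one `a < 1`, one `δ > 0` and
arbitrarily large `k`, for all large `X`, fewer than `X^(η-δ)` points `y` of `Y` in `[X, eX]` violate
`s Δ_k(y) ≤ y^a`, then this growth condition holds for `θ = max(a, 1/2)`. -/
theorem result (s : ℝ) (hs : s = 1 ∨ s = -1) :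
    (∀ A : ℝ, 1 ≤ A →
      (Lindelof ↔ ∀ a : ℝ, 1 / 2 < a → ∃ δ : ℝ, 0 < δ ∧ ∀ K : ℕ, ∃ k : ℕ, K ≤ k ∧ FewPowers s A δ k a) ∧
      (Lindelof ↔ ∀ a : ℝ, 1 / 2 < a → ∀ K : ℕ, ∃ k : ℕ, K ≤ k ∧ AtPrimes s A k a)) ∧
    (∀ (Y : Set ℝ) (η : ℝ), 0 < η → η ≤ 1 → Gaps η Y →
      (Lindelof ↔ ∀ a : ℝ, 1 / 2 < a → ∃ δ : ℝ, 0 < δ ∧ ∀ K : ℕ, ∃ k : ℕ, K ≤ k ∧
        FewExceptions s Y (η - δ) k a) ∧
      ∀ a δ : ℝ, a < 1 → 0 < δ → (∀ K : ℕ, ∃ k : ℕ, K ≤ k ∧ FewExceptions s Y (η - δ) k a) →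
        LindelofRightOf (max a (1 / 2))) ∧
    ∀ θ : ℝ, 1 / 2 ≤ θ → θ < 1 →
      (∀ A : ℝ, 1 ≤ A →
        (LindelofRightOf θ ↔ ∀ a : ℝ, θ < a → ∃ δ : ℝ, 0 < δ ∧ ∀ K : ℕ, ∃ k : ℕ, K ≤ k ∧ FewPowers s A δ k a) ∧
        (LindelofRightOf θ ↔ ∀ a : ℝ, θ < a → ∀ K : ℕ, ∃ k : ℕ, K ≤ k ∧ AtPrimes s A k a)) ∧
      ∀ (Y : Set ℝ) (η : ℝ), 0 < η → η ≤ 1 → Gaps η Y →
        (LindelofRightOf θ ↔ ∀ a : ℝ, θ < a → ∃ δ : ℝ, 0 < δ ∧ ∀ K : ℕ, ∃ k : ℕ, K ≤ k ∧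
          FewExceptions s Y (η - δ) k a) := by
  have hL : Lindelof ↔ LindelofRightOf (1 / 2) := by
    rw [slow_iff]
    exact Run7.h684.LD.lh_iff
  refine ⟨fun A hA => ⟨?_, ?_⟩, fun Y η h1 h2 h3 => ⟨?_, ?_⟩, fun θ hθ0 hθ1 => ⟨fun A hA => ⟨?_, ?_⟩, ?_⟩⟩
  · rw [hL]
    exact equiv_powers le_rfl (by norm_num) hA hs
  · rw [hL]
    exact equiv_primes le_rfl (by norm_num) hA hs
  · rw [hL]
    exact equiv_set le_rfl (by norm_num) h1 h2 h3 hs
  · intro a δ ha hδ h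
    rw [slow_iff]
    refine Run7.h684.LD.fixed' h1 h2 h3 hs ha hδ fun K => ?_
    obtain ⟨k, hk, h4⟩ := h K
    exact ⟨k, hk, (few_iff _ _ _ _ _).1 h4⟩
  · exact equiv_powers hθ0 hθ1 hA hs
  · exact equiv_primes hθ0 hθ1 hA hs
  · exact fun Y η h1 h2 h3 => equiv_set hθ0 hθ1 h1 h2 h3 hs

end Pool.Agent.Results.MP_4e5e8a_nt.SparseDivisorSums
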