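import Pool.Agent.Run7.h684.Smp.Pow

/-!
# Zero-free half-planes and sparse samples of `ψ(x) - x` and `M(x)`

Every set of samples with gaps `O(x^(1-η))`, for one `η > 0`, in particular `{k^A}` for any real
`A ≥ 1`, decides whether `ζ` has no zeros with real part `> θ`.
-/

set_option autoImplicit false

open Filter

namespace Pool.Agent.Results.MP_5a4862_nt.SparseSamples

/-- `|ψ(x) - x|`. -/
noncomputable def psiErr (x : ℝ) : ℝ := |Chebyshev.psi x - x|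

/-- `|M(x)|`, where `M(x) = ∑_{n ≤ x} μ(n)`. -/
noncomputable def mertensAbs (x : ℝ) : ℝ :=
  |∑ n ∈ Finset.Icc 1 ⌊x⌋₊, ((ArithmeticFunction.moebius n : ℤ) : ℝ)|

/-- For some `C` and all large `x`, the interval `[x, x + C x^(1-η)]` meets `Y`. -/
def Gaps (η : ℝ) (Y : Set ℝ) : Prop :=
  ∃ C : ℝ, ∀ᶠ x : ℝ in atTop, ∃ y ∈ Y, x ≤ y ∧ y ≤ x + C * x ^ (1 - η)

/-- At least `N` points `y` of `Y` with `X ≤ y ≤ (1 + c) X` have `f y > y ^ τ`. -/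
def ManyLarge (f : ℝ → ℝ) (Y : Set ℝ) (τ c X N : ℝ) : Prop :=
  ∃ T : Finset ℝ, (∀ y ∈ T, y ∈ Y ∧ X ≤ y ∧ y ≤ (1 + c) * X ∧ y ^ τ < f y) ∧ N ≤ T.card

/-- The number of integers `k` with `K < k ≤ 2K` and `f(k^A) > k^(A τ)`. -/
noncomputable def largeCount (f : ℝ → ℝ) (A τ : ℝ) (K : ℕ) : ℕ :=
  ((Finset.Ioc K (2 * K)).filter fun k : ℕ => (k : ℝ) ^ (A * τ) < f ((k : ℝ) ^ A)).card

/-- Let `f(x) = |ψ(x) - x|` or `f(x) = |M(x)|`, `0 < η ≤ 1`, `Y` a set of reals that meets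
`[x, x + C x^(1-η)]` for all large `x`, and `c > 0`, `θ ≥ 1/2`. If `ζ` has a zero with real part
`> θ` then, for all `ε > 0` and all large `X`, at least `X^(η-ε)` points `y ∈ Y ∩ [X, (1+c)X]` have
`f(y) > y^θ`. Consequently `ζ` has no zero with real part `> θ` if and only if `f(y) ≤ y^(θ+ε)` for
all `ε > 0` and all large `y ∈ Y`, and if and only if for all `ε > 0` there is `δ > 0` such that for
arbitrarily large `X` fewer than `X^(η-δ)` points of `Y ∩ [X, (1+c)X]` violate this. All this applies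
to `Y = {k^A}` with `η = 1/A`, for every real `A ≥ 1`, and yields criteria for Q1 and for the Riemann
hypothesis. -/
theorem result (f : ℝ → ℝ) (hf : f = psiErr ∨ f = mertensAbs) :
    (∀ (Y : Set ℝ) (η c θ : ℝ), 0 < η → η ≤ 1 → Gaps η Y → 0 < c → 1 / 2 ≤ θ →
      ((∃ s : ℂ, riemannZeta s = 0 ∧ θ < s.re) → ∀ ε : ℝ, 0 < ε →
        ∀ᶠ X : ℝ in atTop, ManyLarge f Y θ c X (X ^ (η - ε))) ∧
      [∀ s : ℂ, θ < s.re → riemannZeta s ≠ 0,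
        ∀ ε : ℝ, 0 < ε → ∀ᶠ y : ℝ in atTop, y ∈ Y → f y ≤ y ^ (θ + ε),
        ∀ ε : ℝ, 0 < ε → ∃ δ : ℝ, 0 < δ ∧
          ∃ᶠ X : ℝ in atTop, ¬ ManyLarge f Y (θ + ε) c X (X ^ (η - δ))].TFAE) ∧
    ∀ A : ℝ, 1 ≤ A →
      Gaps (1 / A) (Set.range fun k : ℕ => (k : ℝ) ^ A) ∧
      [∃ σ₀ : ℝ, 1 / 2 < σ₀ ∧ σ₀ < 1 ∧ ∀ s : ℂ, σ₀ ≤ s.re → riemannZeta s ≠ 0,
        ∃ τ : ℝ, τ < 1 ∧ ∀ᶠ k : ℕ in atTop, f ((k : ℝ) ^ A) ≤ (k : ℝ) ^ (A * τ),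
        ∃ τ δ : ℝ, τ < 1 ∧ 0 < δ ∧
          ∃ᶠ K : ℕ in atTop, (largeCount f A τ K : ℝ) ≤ (K : ℝ) ^ (1 - δ)].TFAE ∧
      [RiemannHypothesis,
        ∀ ε : ℝ, 0 < ε → ∀ᶠ k : ℕ in atTop, f ((k : ℝ) ^ A) ≤ (k : ℝ) ^ (A * (1 / 2 + ε)),
        ∀ ε : ℝ, 0 < ε → ∃ δ : ℝ, 0 < δ ∧
          ∃ᶠ K : ℕ in atTop, (largeCount f A (1 / 2 + ε) K : ℝ) ≤ (K : ℝ) ^ (1 - δ)].TFAE := by
  have hL : Run7.h684.Smp.Large f := by
    rcases hf with h | h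
    · rw [h]
      exact Run7.h684.Smp.large_psi
    · rw [h]
      exact Run7.h684.Smp.large_mer
  have hU : Run7.h684.Smp.Upper f := by
    rcases hf with h | h
    · rw [h]
      exact Run7.h684.Smp.upper_psi
    · rw [h]
      exact Run7.h684.Smp.upper_mer
  have hpow : ∀ (A τ : ℝ) (k : ℕ), (k : ℝ) ^ (A * τ) = ((k : ℝ) ^ A) ^ τ := fun A τ k =>
    Real.rpow_mul (Nat.cast_nonneg k) A τ
  have hcnt : ∀ (A τ : ℝ) (K : ℕ), largeCount f A τ K = (Run7.h684.Smp.big f A τ K).card := by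
    intro A τ K
    unfold largeCount Run7.h684.Smp.big
    simp_rw [hpow]
  refine ⟨?_, fun A hA => ⟨?_, ?_, ?_⟩⟩
  · intro Y η c θ hη hη1 hY hc hθ
    obtain ⟨C, hC⟩ := hY
    have key : ∀ t : ℝ, 1 / 2 ≤ t → (∃ s : ℂ, riemannZeta s = 0 ∧ t < s.re) → ∀ ε : ℝ, 0 < ε →
        ∀ᶠ X : ℝ in atTop, ManyLarge f Y t c X (X ^ (η - ε)) := by
      intro t ht hz ε hε
      filter_upwards [hL Y η C c t ε hη hη1 hc hC ht hz hε] with X hX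
      obtain ⟨T, h1, h2⟩ := hX
      refine ⟨T, fun y hy => ?_, h2⟩
      obtain ⟨g1, g2, g3, g4⟩ := h1 y hy
      exact ⟨g1, g2, by linarith, g4⟩
    refine ⟨key θ hθ, ?_⟩
    tfae_have 1 → 2 := (Run7.h684.Smp.equiv_set hL hU Y hη hη1 hC hθ).1
    tfae_have 2 → 3 := by
      intro h ε hε
      refine ⟨1, one_pos, Eventually.frequently ?_⟩
      obtain ⟨y0, hy0⟩ := eventually_atTop.1 (h ε hε)
      filter_upwards [eventually_ge_atTop y0, eventually_gt_atTop 0] with X hX1 hX2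
      rintro ⟨T, h1, h2⟩
      have h3 : 0 < T.card := by
        have : (0 : ℝ) < X ^ (η - 1) := Real.rpow_pos_of_pos hX2 _
        exact_mod_cast this.trans_le h2
      obtain ⟨y, hy⟩ := Finset.card_pos.1 h3
      obtain ⟨g1, g2, _, g4⟩ := h1 y hy
      exact absurd (hy0 y (hX1.trans g2) g1) (not_le.2 g4)
    tfae_have 3 → 1 := by
      intro h s hs h0
      obtain ⟨δ, hδ, h1⟩ := h ((s.re - θ) / 2) (by linarith)
      have h2 := key (θ + (s.re - θ) / 2) (by linarith) ⟨s, h0, by linarith⟩ δ hδ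
      obtain ⟨X, hX1, hX2⟩ := (h1.and_eventually h2).exists
      exact hX1 hX2
    tfae_finish
  · refine ⟨2 ^ A - 1, ?_⟩
    filter_upwards [eventually_ge_atTop 1] with x hx using Run7.h684.Smp.pow_gap hA x hx
  · simp_rw [hcnt, hpow]
    exact Run7.h684.Smp.equiv_Q1 hL hU hA
  · simp_rw [hcnt, hpow]
    have h := Run7.h684.Smp.equiv_pow hL hU hA (θ := 1 / 2) le_rfl
    have h1 := Pool.Agent.W190.rh_free
    have h2 : (∀ s : ℂ, 1 / 2 < s.re → riemannZeta s ≠ 0) ↔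
        ∀ ε : ℝ, 0 < ε → ∀ᶠ k : ℕ in atTop, f ((k : ℝ) ^ A) ≤ ((k : ℝ) ^ A) ^ (1 / 2 + ε) :=
      h.out 0 1
    have h3 : (∀ s : ℂ, 1 / 2 < s.re → riemannZeta s ≠ 0) ↔
        ∀ ε : ℝ, 0 < ε → ∃ δ : ℝ, 0 < δ ∧ ∃ᶠ K : ℕ in atTop,
          ((Run7.h684.Smp.big f A (1 / 2 + ε) K).card : ℝ) ≤ (K : ℝ) ^ (1 - δ) :=
      h.out 0 2
    tfae_have 1 ↔ 2 := h1.trans h2
    tfae_have 1 ↔ 3 := h1.trans h3
    tfae_finish

end Pool.Agent.Results.MP_5a4862_nt.SparseSamples
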